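import Pool.Agent.H699.MW.Defs

/-!
Distribution function and modulus of continuity of stepLaw (subtask MW-CDF for helper699).
Author: helper114.
-/

set_option autoImplicit false

open MeasureTheory Finset
open scoped Classical

namespace Pool.Agent.H114.MW.CDF

open Pool.Agent.H699.MW

theorem measurable_pmax {ι Ω : Type*} [MeasurableSpace Ω] (s : Finset ι) (g : ι → Ω → ℝ)
    (hg : ∀ i, Measurable (g i)) : Measurable fun p => pmax s fun i => g i p := by
  unfold pmax
  induction s using Finset.induction_on with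
  | empty =>
    simp only [Finset.fold_empty]
    exact measurable_const
  | insert i s hi ih =>
    simp only [Finset.fold_insert hi]
    exact (hg i).max ih

theorem measurable_step (k : ℕ) :
    Measurable fun p : Fin k → ℝ × ℝ => pmax univ fun i => (p i).1 - (p i).2 :=
  measurable_pmax univ (fun i (p : Fin k → ℝ × ℝ) => (p i).1 - (p i).2) fun i =>
    ((measurable_pi_apply i).fst).sub ((measurable_pi_apply i).snd)

theorem t_CDF : S_CDF := by
  intro μ k ν hμ hν
  have hP : IsProbabilityMeasure (stepLaw μ k ν) := by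
    unfold stepLaw
    exact Measure.isProbabilityMeasure_map (measurable_step k).aemeasurable
  refine ⟨hP, fun t ht => ?_⟩
  have e : (fun p : Fin k → ℝ × ℝ => pmax univ fun i => (p i).1 - (p i).2) ⁻¹' Set.Iic t =
      Set.pi Set.univ (fun _ : Fin k => {q : ℝ × ℝ | q.1 - q.2 ≤ t}) := by
    ext p
    simp only [Set.mem_preimage, Set.mem_Iic, Set.mem_pi, Set.mem_univ, true_implies,
      Set.mem_setOf_eq]
    unfold pmax
    rw [Finset.fold_max_le]
    constructor
    · intro h i
      exact h.2 i (Finset.mem_univ i)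
    · intro h
      exact ⟨ht, fun i _ => h i⟩
  unfold stepLaw
  rw [map_measureReal_apply (measurable_step k) measurableSet_Iic, e, measureReal_def,
    Measure.pi_pi, ENNReal.toReal_prod]
  rfl

theorem t_MOD : S_MOD := by
  intro μ k ν x y ε hμ hν hx hxy hε
  have hε0 : 0 ≤ ε := le_trans measureReal_nonneg (hε 0)
  obtain ⟨P, hPdef⟩ : ∃ P : Measure (Fin k → ℝ × ℝ), P = Measure.pi fun i => μ.prod (ν i) :=
    ⟨_, rfl⟩
  have hPP : IsProbabilityMeasure P := by
    rw [hPdef]
    infer_instance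
  have hA : MeasurableSet {q : ℝ × ℝ | q.1 - q.2 ∈ Set.Ioc x y} :=
    (measurable_fst.sub measurable_snd) measurableSet_Ioc
  have h1 : (fun p : Fin k → ℝ × ℝ => pmax univ fun i => (p i).1 - (p i).2) ⁻¹' Set.Ioc x y ⊆
      ⋃ i : Fin k, {p : Fin k → ℝ × ℝ | (p i).1 - (p i).2 ∈ Set.Ioc x y} := by
    intro p hp
    simp only [Set.mem_preimage, Set.mem_Ioc] at hp
    obtain ⟨h2, h3⟩ := hp
    unfold pmax at h2 h3
    rw [Finset.lt_fold_max] at h2
    rw [Finset.fold_max_le] at h3
    rcases h2 with h2 | ⟨i, hi, h2⟩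
    · exact absurd h2 (not_lt.2 hx)
    · rw [Set.mem_iUnion]
      exact ⟨i, h2, h3.2 i hi⟩
  have h4 : ∀ i : Fin k, P.real {p : Fin k → ℝ × ℝ | (p i).1 - (p i).2 ∈ Set.Ioc x y} ≤ ε := by
    intro i
    have h5 : MeasurePreserving (Function.eval i) P (μ.prod (ν i)) := by
      rw [hPdef]
      exact measurePreserving_eval (fun i => μ.prod (ν i)) i
    have h6 : P.real {p : Fin k → ℝ × ℝ | (p i).1 - (p i).2 ∈ Set.Ioc x y} =
        (μ.prod (ν i)).real {q : ℝ × ℝ | q.1 - q.2 ∈ Set.Ioc x y} := by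
      rw [measureReal_def, measureReal_def, ← h5.measure_preimage hA.nullMeasurableSet]
      rfl
    rw [h6, measureReal_def]
    refine ENNReal.toReal_le_of_le_ofReal hε0 ?_
    rw [Measure.prod_apply_symm hA]
    have h7 : ∀ z : ℝ, μ ((fun w => (w, z)) ⁻¹' {q : ℝ × ℝ | q.1 - q.2 ∈ Set.Ioc x y}) ≤
        ENNReal.ofReal ε := by
      intro z
      have h8 : (fun w : ℝ => (w, z)) ⁻¹' {q : ℝ × ℝ | q.1 - q.2 ∈ Set.Ioc x y} ⊆
          Set.Icc (x + z) (x + z + (y - x)) := by
        intro w hw
        simp only [Set.mem_preimage, Set.mem_setOf_eq, Set.mem_Ioc] at hw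
        exact ⟨by linarith [hw.1], by linarith [hw.2]⟩
      refine (measure_mono h8).trans ?_
      have h9 := hε (x + z)
      rw [measureReal_def] at h9
      exact (ENNReal.le_ofReal_iff_toReal_le (measure_ne_top μ _) hε0).2 h9
    calc ∫⁻ z, μ ((fun w => (w, z)) ⁻¹' {q : ℝ × ℝ | q.1 - q.2 ∈ Set.Ioc x y}) ∂(ν i)
        ≤ ∫⁻ _, ENNReal.ofReal ε ∂(ν i) := lintegral_mono h7
      _ = ENNReal.ofReal ε := by simp
  unfold stepLaw
  rw [map_measureReal_apply (measurable_step k) measurableSet_Ioc, ← hPdef]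
  refine (measureReal_mono h1).trans ?_
  refine (measureReal_iUnion_fintype_le _).trans ?_
  refine (Finset.sum_le_sum fun i _ => h4 i).trans ?_
  rw [Finset.sum_const, Finset.card_univ, Fintype.card_fin, nsmul_eq_mul]

end Pool.Agent.H114.MW.CDF
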